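import Pool.Agent.H14.AVS.S6

/-!
# AVS, module SHP: the group of points does not depend on the equation
-/

set_option autoImplicit false

namespace Pool.AVS.SHP

open WeierstrassCurve Pool.AVR

variable {K : Type} [Field K]

/-- The relation between the two equations over a field. -/
def Sb (l r a b c a' b' c' : K) : Prop :=
  a' = l ^ 2 * a - 3 * r ∧ b' = l ^ 4 * b - 2 * l ^ 2 * r * a + 3 * r ^ 2 ∧
    c' = l ^ 6 * c - l ^ 4 * r * b + l ^ 2 * r ^ 2 * a - r ^ 3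

lemma eqn_iff {l r a b c a' b' c' : K} (hl : l ≠ 0) (h : Sb l r a b c a' b' c') (x y : K) :
    (E a' b' c').toAffine.Equation (l ^ 2 * x + r) (l ^ 3 * y) ↔
      (E a b c).toAffine.Equation x y := by
  obtain ⟨h1, h2, h3⟩ := h
  rw [Affine.equation_iff, Affine.equation_iff]
  simp only [E]
  constructor
  · intro he
    have h6 : l ^ 6 * (y ^ 2 + 0 * x * y + 0 * y - (x ^ 3 + a * x ^ 2 + b * x + c)) = 0 := by
      subst h1 h2 h3
      linear_combination he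
    have := (mul_eq_zero.mp h6).resolve_left (pow_ne_zero 6 hl)
    linear_combination this
  · intro he
    subst h1 h2 h3
    linear_combination l ^ 6 * he

lemma nons_iff {l r a b c a' b' c' : K} (hl : l ≠ 0) (h : Sb l r a b c a' b' c') (x y : K) :
    (E a' b' c').toAffine.Nonsingular (l ^ 2 * x + r) (l ^ 3 * y) ↔
      (E a b c).toAffine.Nonsingular x y := by
  rw [Affine.nonsingular_iff, Affine.nonsingular_iff, eqn_iff hl h]
  obtain ⟨h1, h2, h3⟩ := h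
  simp only [E]
  have e1 : 3 * (l ^ 2 * x + r) ^ 2 + 2 * a' * (l ^ 2 * x + r) + b' =
      l ^ 4 * (3 * x ^ 2 + 2 * a * x + b) := by
    subst h1 h2
    ring
  rw [e1]
  have e2 : (0 * (l ^ 3 * y) ≠ l ^ 4 * (3 * x ^ 2 + 2 * a * x + b)) ↔
      (0 * y ≠ 3 * x ^ 2 + 2 * a * x + b) := by
    rw [not_iff_not, zero_mul, zero_mul]
    constructor
    · intro h0
      exact ((mul_eq_zero.mp h0.symm).resolve_left (pow_ne_zero 4 hl)).symm
    · intro h0
      rw [← h0, mul_zero]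
  have e3 : (l ^ 3 * y ≠ -(l ^ 3 * y) - 0 * (l ^ 2 * x + r) - 0) ↔ (y ≠ -y - 0 * x - 0) := by
    rw [not_iff_not]
    constructor
    · intro h0
      have : l ^ 3 * (y - (-y - 0 * x - 0)) = 0 := by linear_combination h0
      exact sub_eq_zero.mp ((mul_eq_zero.mp this).resolve_left (pow_ne_zero 3 hl))
    · intro h0
      linear_combination l ^ 3 * h0
  rw [e2, e3]

/-- The map on points. -/
def phi {l r a b c a' b' c' : K} (hl : l ≠ 0) (h : Sb l r a b c a' b' c') : Pt a b c → Pt a' b' c'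
  | .zero => .zero
  | .some x y hxy => .some (l ^ 2 * x + r) (l ^ 3 * y) ((nons_iff hl h x y).mpr hxy)

lemma neg_iff {l r a b c a' b' c' : K} (hl : l ≠ 0) (x₁ x₂ y₁ y₂ : K) :
    (l ^ 2 * x₁ + r = l ^ 2 * x₂ + r ∧
      l ^ 3 * y₁ = (E a' b' c').toAffine.negY (l ^ 2 * x₂ + r) (l ^ 3 * y₂)) ↔
    (x₁ = x₂ ∧ y₁ = (E a b c).toAffine.negY x₂ y₂) := by
  simp only [Affine.negY, E]
  constructor
  · rintro ⟨h1, h2⟩
    refine ⟨mul_left_cancel₀ (pow_ne_zero 2 hl) (add_right_cancel h1), ?_⟩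
    refine mul_left_cancel₀ (pow_ne_zero 3 hl) ?_
    linear_combination h2
  · rintro ⟨h1, h2⟩
    refine ⟨by rw [h1], ?_⟩
    linear_combination l ^ 3 * h2

lemma slope_eq [DecidableEq K] {l r a b c a' b' c' : K} (hl : l ≠ 0)
    (h : Sb l r a b c a' b' c') {x₁ x₂ y₁ y₂ : K}
    (hxy : ¬(x₁ = x₂ ∧ y₁ = (E a b c).toAffine.negY x₂ y₂)) :
    (E a' b' c').toAffine.slope (l ^ 2 * x₁ + r) (l ^ 2 * x₂ + r) (l ^ 3 * y₁) (l ^ 3 * y₂) =
      l * (E a b c).toAffine.slope x₁ x₂ y₁ y₂ := by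
  by_cases hx : x₁ = x₂
  · subst hx
    have hy : y₁ ≠ (E a b c).toAffine.negY x₁ y₂ := fun h0 => hxy ⟨rfl, h0⟩
    have hy' : l ^ 3 * y₁ ≠ (E a' b' c').toAffine.negY (l ^ 2 * x₁ + r) (l ^ 3 * y₂) := fun h0 =>
      hxy ((neg_iff (r := r) hl x₁ x₁ y₁ y₂).mp ⟨rfl, h0⟩)
    rw [Affine.slope_of_Y_ne rfl hy, Affine.slope_of_Y_ne rfl hy']
    obtain ⟨h1, h2, h3⟩ := h
    simp only [Affine.negY, E]
    have e1 : 3 * (l ^ 2 * x₁ + r) ^ 2 + 2 * a' * (l ^ 2 * x₁ + r) + b' - 0 * (l ^ 3 * y₁) =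
        l ^ 3 * (l * (3 * x₁ ^ 2 + 2 * a * x₁ + b - 0 * y₁)) := by
      subst h1 h2
      ring
    have e2 : l ^ 3 * y₁ - (-(l ^ 3 * y₁) - 0 * (l ^ 2 * x₁ + r) - 0) =
        l ^ 3 * (y₁ - (-y₁ - 0 * x₁ - 0)) := by ring
    rw [e1, e2, mul_div_mul_left _ _ (pow_ne_zero 3 hl), mul_div_assoc]
  · have hx' : l ^ 2 * x₁ + r ≠ l ^ 2 * x₂ + r := fun h0 =>
      hx (mul_left_cancel₀ (pow_ne_zero 2 hl) (add_right_cancel h0))
    rw [Affine.slope_of_X_ne hx, Affine.slope_of_X_ne hx']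
    have e1 : l ^ 3 * y₁ - l ^ 3 * y₂ = l ^ 2 * (l * (y₁ - y₂)) := by ring
    have e2 : l ^ 2 * x₁ + r - (l ^ 2 * x₂ + r) = l ^ 2 * (x₁ - x₂) := by ring
    rw [e1, e2, mul_div_mul_left _ _ (pow_ne_zero 2 hl), mul_div_assoc]

lemma some_congr {a b c x x' y y' : K} (hx : x = x') (hy : y = y')
    (h : (E a b c).toAffine.Nonsingular x y) (h' : (E a b c).toAffine.Nonsingular x' y') :
    (Affine.Point.some x y h : Pt a b c) = Affine.Point.some x' y' h' := by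
  subst hx hy
  rfl

lemma phi_add [DecidableEq K] {l r a b c a' b' c' : K} (hl : l ≠ 0)
    (h : Sb l r a b c a' b' c') (P Q : Pt a b c) : phi hl h (P + Q) = phi hl h P + phi hl h Q := by
  rcases P with _ | ⟨x₁, y₁, h₁⟩
  · exact (congrArg (phi hl h) (zero_add Q)).trans (zero_add (phi hl h Q)).symm
  rcases Q with _ | ⟨x₂, y₂, h₂⟩
  · exact (congrArg (phi hl h) (add_zero _)).trans (add_zero _).symm
  by_cases hxy : x₁ = x₂ ∧ y₁ = (E a b c).toAffine.negY x₂ y₂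
  · have hxy' := (neg_iff (a := a) (b := b) (c := c) (a' := a') (b' := b') (c' := c') (r := r)
      hl x₁ x₂ y₁ y₂).mpr hxy
    rw [Affine.Point.add_of_Y_eq hxy.1 hxy.2]
    exact (Affine.Point.add_of_Y_eq hxy'.1 hxy'.2).symm
  · have hxy' : ¬ (l ^ 2 * x₁ + r = l ^ 2 * x₂ + r ∧
        l ^ 3 * y₁ = (E a' b' c').toAffine.negY (l ^ 2 * x₂ + r) (l ^ 3 * y₂)) := fun h0 =>
      hxy ((neg_iff (a := a) (b := b) (c := c) (r := r) hl x₁ x₂ y₁ y₂).mp h0)
    rw [Affine.Point.add_some hxy]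
    simp only [phi]
    rw [Affine.Point.add_some hxy']
    have hs := slope_eq (r := r) hl h hxy
    obtain ⟨h1, h2, h3⟩ := h
    refine some_congr ?_ ?_ _ _
    · rw [hs]
      simp only [Affine.addX, E]
      subst h1
      ring
    · rw [hs]
      simp only [Affine.addY, Affine.negAddY, Affine.addX, Affine.negY, E]
      subst h1
      ring

lemma phi_bij {l r a b c a' b' c' : K} (hl : l ≠ 0)
    (h : Sb l r a b c a' b' c') : Function.Bijective (phi hl h) := by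
  constructor
  · rintro (_ | ⟨x₁, y₁, h₁⟩) (_ | ⟨x₂, y₂, h₂⟩) he
    · rfl
    · simp [phi] at he
    · simp [phi] at he
    · simp only [phi, Affine.Point.some.injEq] at he
      exact some_congr (mul_left_cancel₀ (pow_ne_zero 2 hl) (add_right_cancel he.1))
        (mul_left_cancel₀ (pow_ne_zero 3 hl) he.2) _ _
  · rintro (_ | ⟨x, y, h₁⟩)
    · exact ⟨.zero, rfl⟩
    · have hx : l ^ 2 * ((l ^ 2)⁻¹ * (x - r)) + r = x := by
        rw [← mul_assoc, mul_inv_cancel₀ (pow_ne_zero 2 hl)]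
        ring
      have hy : l ^ 3 * ((l ^ 3)⁻¹ * y) = y := by
        rw [← mul_assoc, mul_inv_cancel₀ (pow_ne_zero 3 hl)]
        ring
      have hn : (E a b c).toAffine.Nonsingular ((l ^ 2)⁻¹ * (x - r)) ((l ^ 3)⁻¹ * y) := by
        rw [← nons_iff hl h, hx, hy]
        exact h₁
      exact ⟨.some _ _ hn, some_congr hx hy _ _⟩

lemma equiv [DecidableEq K] {l r a b c a' b' c' : K} (hl : l ≠ 0)
    (h : Sb l r a b c a' b' c') : Nonempty (Pt a b c ≃+ Pt a' b' c') :=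
  ⟨AddEquiv.ofBijective (⟨⟨phi hl h, rfl⟩, phi_add hl h⟩ : Pt a b c →+ Pt a' b' c')
    (phi_bij hl h)⟩

end Pool.AVS.SHP

namespace Pool.AVS

open Polynomial Pool.AVR

theorem SHP_thm : SHPStmt := by
  classical
  intro F _ _ f f' l r hl h
  obtain ⟨h1, h2, h3⟩ := h
  have hl' : algebraMap F[X] (RatFunc F) l ≠ 0 := fun h0 =>
    hl ((IsFractionRing.injective F[X] (RatFunc F)) (h0.trans (map_zero _).symm))
  refine SHP.equiv (l := algebraMap F[X] (RatFunc F) l) (r := algebraMap F[X] (RatFunc F) r)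
    hl' ⟨?_, ?_, ?_⟩
  · rw [h1]
    simp only [map_sub, map_mul, map_pow, map_ofNat]
  · rw [h2]
    simp only [map_sub, map_add, map_mul, map_pow, map_ofNat]
  · rw [h3]
    simp only [map_sub, map_add, map_mul, map_pow]

end Pool.AVS
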